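import Pool.Agent.Helper11.Pq.Vals

/-! Packet QQ of MP_705522_gt. -/

namespace Pool.Agent.Helper11.Pq

open MeasureTheory Set
open Pool.Agent.Helper53.Pq

/-! ### explicit Taylor polynomials -/

noncomputable def c4 (t : ℝ) : ℝ := 1 - t ^ 2 / 2 + t ^ 4 / 24
noncomputable def c6 (t : ℝ) : ℝ := 1 - t ^ 2 / 2 + t ^ 4 / 24 - t ^ 6 / 720
noncomputable def c8 (t : ℝ) : ℝ := 1 - t ^ 2 / 2 + t ^ 4 / 24 - t ^ 6 / 720 + t ^ 8 / 40320
noncomputable def s5 (t : ℝ) : ℝ := t - t ^ 3 / 6 + t ^ 5 / 120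
noncomputable def q4 (t : ℝ) : ℝ := 1 - t ^ 2 / 2 + t ^ 4 / 8 - t ^ 6 / 48 + t ^ 8 / 384
noncomputable def q6 (t : ℝ) : ℝ :=
  1 - t ^ 2 / 2 + t ^ 4 / 8 - t ^ 6 / 48 + t ^ 8 / 384 - t ^ 10 / 3840 + t ^ 12 / 46080
noncomputable def q8 (t : ℝ) : ℝ :=
  1 - t ^ 2 / 2 + t ^ 4 / 8 - t ^ 6 / 48 + t ^ 8 / 384 - t ^ 10 / 3840 + t ^ 12 / 46080
    - t ^ 14 / 645120 + t ^ 16 / 10321920
noncomputable def e5 (t : ℝ) : ℝ :=
  1 - t ^ 2 / 2 + t ^ 4 / 8 - t ^ 6 / 48 + t ^ 8 / 384 - t ^ 10 / 3840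

theorem cos_c4 {t : ℝ} (ht : 0 ≤ t) : Real.cos t ≤ c4 t := by
  have := (cos_sin_taylor 2).1 t ht
  norm_num [Cn, Finset.sum_range_succ, Nat.factorial] at this
  unfold c4
  linarith

theorem cos_c8 {t : ℝ} (ht : 0 ≤ t) : Real.cos t ≤ c8 t := by
  have := (cos_sin_taylor 4).1 t ht
  norm_num [Cn, Finset.sum_range_succ, Nat.factorial] at this
  unfold c8
  linarith

theorem c6_cos {t : ℝ} (ht : 0 ≤ t) : c6 t ≤ Real.cos t := by
  have := (cos_sin_taylor 3).1 t ht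
  norm_num [Cn, Finset.sum_range_succ, Nat.factorial] at this
  unfold c6
  linarith

theorem c10_cos {t : ℝ} (ht : 0 ≤ t) : c8 t - t ^ 10 / 3628800 ≤ Real.cos t := by
  have := (cos_sin_taylor 5).1 t ht
  norm_num [Cn, Finset.sum_range_succ, Nat.factorial] at this
  unfold c8
  linarith

theorem sin_s5 {t : ℝ} (ht : 0 ≤ t) : Real.sin t ≤ s5 t := by
  have := (cos_sin_taylor 2).2 t ht
  norm_num [Sn, Finset.sum_range_succ, Nat.factorial] at this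
  unfold s5
  linarith

theorem s7_sin {t : ℝ} (ht : 0 ≤ t) : s5 t - t ^ 7 / 5040 ≤ Real.sin t := by
  have := (cos_sin_taylor 3).2 t ht
  norm_num [Sn, Finset.sum_range_succ, Nat.factorial] at this
  unfold s5
  linarith

theorem exp_q4 (t : ℝ) : Real.exp (-(t ^ 2 / 2)) ≤ q4 t := by
  have := exp_taylor 5 (t ^ 2 / 2) (by positivity)
  norm_num [En, Finset.sum_range_succ, Nat.factorial] at this
  unfold q4
  linarith

theorem exp_q6 (t : ℝ) : Real.exp (-(t ^ 2 / 2)) ≤ q6 t := by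
  have := exp_taylor 7 (t ^ 2 / 2) (by positivity)
  norm_num [En, Finset.sum_range_succ, Nat.factorial] at this
  unfold q6
  linarith

theorem exp_q8 (t : ℝ) : Real.exp (-(t ^ 2 / 2)) ≤ q8 t := by
  have := exp_taylor 9 (t ^ 2 / 2) (by positivity)
  norm_num [En, Finset.sum_range_succ, Nat.factorial] at this
  unfold q8
  linarith

theorem e5_exp (t : ℝ) : e5 t ≤ Real.exp (-(t ^ 2 / 2)) := by
  have := exp_taylor 6 (t ^ 2 / 2) (by positivity)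
  norm_num [En, Finset.sum_range_succ, Nat.factorial] at this
  unfold e5
  linarith

theorem exp_lo1 {x : ℝ} (hx : 0 ≤ x) : 1 - x ≤ Real.exp (-x) := by
  have := exp_taylor 2 x hx
  norm_num [En, Finset.sum_range_succ, Nat.factorial] at this
  linarith

theorem exp_hi2 {x : ℝ} (hx : 0 ≤ x) : Real.exp (-x) ≤ 1 - x + x ^ 2 / 2 := by
  have := exp_taylor 3 x hx
  norm_num [En, Finset.sum_range_succ, Nat.factorial] at this
  linarith

theorem exp_lo3 {x : ℝ} (hx : 0 ≤ x) : 1 - x + x ^ 2 / 2 - x ^ 3 / 6 ≤ Real.exp (-x) := by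
  have := exp_taylor 4 x hx
  norm_num [En, Finset.sum_range_succ, Nat.factorial] at this
  linarith

theorem bern1 {y : ℝ} (h0 : 0 ≤ y) (h1 : y ≤ 9 / 5) :
    0 ≤ 0.00342 * y ^ 5 - (1 - y / 2 + y ^ 2 / 8 - y ^ 3 / 48 + y ^ 4 / 384 - y ^ 5 / 3840 +
      y ^ 6 / 46080) + 2 * (1 - y / 2 + y ^ 2 / 24 - y ^ 3 / 720 + y ^ 4 / 40320 -
      y ^ 5 / 3628800) := by
  have e : 0.00342 * y ^ 5 - (1 - y / 2 + y ^ 2 / 8 - y ^ 3 / 48 + y ^ 4 / 384 - y ^ 5 / 3840 +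
      y ^ 6 / 46080) + 2 * (1 - y / 2 + y ^ 2 / 24 - y ^ 3 / 720 + y ^ 4 / 40320 -
      y ^ 5 / 3628800) =
      15625/531441 * y ^ 0 * (9/5 - y) ^ 6 +
      53125/354294 * y ^ 1 * (9/5 - y) ^ 5 +
      431875/1417176 * y ^ 2 * (9/5 - y) ^ 4 +
      2641325/8503056 * y ^ 3 * (9/5 - y) ^ 3 +
      25569055/158723712 * y ^ 4 * (9/5 - y) ^ 2 +
      7535499941/198404640000 * y ^ 5 * (9/5 - y) ^ 1 +
      1122786631/340122240000 * y ^ 6 * (9/5 - y) ^ 0 := by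
    norm_num
    ring
  rw [e]
  have hz : 0 ≤ 9 / 5 - y := by linarith
  positivity

theorem bern2 {y : ℝ} (h0 : 9 / 5 ≤ y) (h1 : y ≤ 987 / 400) :
    0 ≤ 0.00342 * y ^ 5 - (1 - y / 2 + y ^ 2 / 8 - y ^ 3 / 48 + y ^ 4 / 384 - y ^ 5 / 3840 +
      y ^ 6 / 46080) + 2 * (1 - y / 2 + y ^ 2 / 24 - y ^ 3 / 720 + y ^ 4 / 40320 -
      y ^ 5 / 3628800) := by
  have e : 0.00342 * y ^ 5 - (1 - y / 2 + y ^ 2 / 8 - y ^ 3 / 48 + y ^ 4 / 384 - y ^ 5 / 3840 +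
      y ^ 6 / 46080) + 2 * (1 - y / 2 + y ^ 2 / 24 - y ^ 3 / 720 + y ^ 4 / 40320 -
      y ^ 5 / 3628800) =
      459893404057600/362299361110569 * (y - 9/5) ^ 0 * (987/400 - y) ^ 6 +
      4247752095385600/845365175924661 * (y - 9/5) ^ 1 * (987/400 - y) ^ 5 +
      6068103951922240/845365175924661 * (y - 9/5) ^ 2 * (987/400 - y) ^ 4 +
      1537427227590896/362299361110569 * (y - 9/5) ^ 3 * (987/400 - y) ^ 3 +
      2258879685124367/2415329074070460 * (y - 9/5) ^ 4 * (987/400 - y) ^ 2 +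
      56333669729106281/161021938271364000 * (y - 9/5) ^ 5 * (987/400 - y) ^ 1 +
      10917628108446774503/46374318222152832000 * (y - 9/5) ^ 6 * (987/400 - y) ^ 0 := by
    norm_num
    ring
  rw [e]
  have hz : 0 ≤ 987 / 400 - y := by linarith
  have hw : 0 ≤ y - 9 / 5 := by linarith
  positivity

theorem psi_bound {t : ℝ} (ht : 0 ≤ t) (h1 : t ^ 2 ≤ 987 / 400) :
    Real.exp (-(t ^ 2 / 2)) - 2 * Real.cos t ≤ 0.00342 * t ^ 10 := by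
  have h2 := exp_q6 t
  have h3 := c10_cos ht
  have h4 : 0 ≤ 0.00342 * (t ^ 2) ^ 5 - (1 - t ^ 2 / 2 + (t ^ 2) ^ 2 / 8 - (t ^ 2) ^ 3 / 48 +
      (t ^ 2) ^ 4 / 384 - (t ^ 2) ^ 5 / 3840 +
      (t ^ 2) ^ 6 / 46080) + 2 * (1 - t ^ 2 / 2 + (t ^ 2) ^ 2 / 24 - (t ^ 2) ^ 3 / 720 +
      (t ^ 2) ^ 4 / 40320 - (t ^ 2) ^ 5 / 3628800) := by
    rcases le_total (t ^ 2) (9 / 5) with h | h
    · exact bern1 (sq_nonneg t) h
    · exact bern2 h h1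
  unfold q6 at h2
  unfold c8 at h3
  have e2 : (t ^ 2) ^ 2 = t ^ 4 := by ring
  have e3 : (t ^ 2) ^ 3 = t ^ 6 := by ring
  have e4 : (t ^ 2) ^ 4 = t ^ 8 := by ring
  have e5 : (t ^ 2) ^ 5 = t ^ 10 := by ring
  have e6 : (t ^ 2) ^ 6 = t ^ 12 := by ring
  rw [e2, e3, e4, e5, e6] at h4
  linarith

end Pool.Agent.Helper11.Pq
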