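import Pool.Agent.Helper11.Pq.Expl

/-! Packet QQ of MP_705522_gt: `theorem gQ : GQ`. -/

namespace Pool.Agent.Helper11.Pq

open MeasureTheory Set
open Pool.Agent.Helper53.Pq

/-! ### sums of polynomials with parameters -/

/-- `∑ a * t^n * pe l t` -/
noncomputable def gs : List (ℝ × ℕ × List ℝ) → ℝ → ℝ
  | [], _ => 0
  | x :: T, t => x.1 * (t ^ x.2.1 * pe x.2.2 t) + gs T t

noncomputable def Gs : List (ℝ × ℕ × List ℝ) → ℝ → ℝ
  | [], _ => 0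
  | x :: T, t => x.1 * ia x.2.1 x.2.2 t + Gs T t

theorem hasDerivAt_Gs (T : List (ℝ × ℕ × List ℝ)) (t : ℝ) : HasDerivAt (Gs T) (gs T t) t := by
  induction T with
  | nil =>
    have e : Gs [] = fun _ => (0 : ℝ) := by
      funext x
      simp [Gs]
    have e2 : gs [] t = 0 := by simp [gs]
    rw [e, e2]
    exact hasDerivAt_const t (0 : ℝ)
  | cons x T ih =>
    have e : Gs (x :: T) = (fun t => x.1 * ia x.2.1 x.2.2 t) + Gs T := by
      funext t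
      simp [Gs]
    have e2 : gs (x :: T) t = x.1 * (t ^ x.2.1 * pe x.2.2 t) + gs T t := by simp [gs]
    rw [e, e2]
    exact ((hasDerivAt_ia x.2.2 x.2.1 t).const_mul x.1).add ih

theorem continuous_gs (T : List (ℝ × ℕ × List ℝ)) : Continuous (gs T) := by
  induction T with
  | nil =>
    have e : gs [] = fun _ => (0 : ℝ) := by
      funext x
      simp [gs]
    rw [e]
    exact continuous_const
  | cons x T ih =>
    have e : gs (x :: T) = fun t => x.1 * (t ^ x.2.1 * pe x.2.2 t) + gs T t := by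
      funext t
      simp [gs]
    have h := continuous_pe x.2.2
    rw [e]
    fun_prop

theorem Gs_zero (T : List (ℝ × ℕ × List ℝ)) : Gs T 0 = 0 := by
  induction T with
  | nil => simp [Gs]
  | cons x T ih => simp [Gs, ia_zero, ih]

theorem int_gs (T : List (ℝ × ℕ × List ℝ)) {b : ℝ} (hb : 0 ≤ b) :
    ∫ t in Ioc 0 b, gs T t = Gs T b := by
  rw [ftc hb (hasDerivAt_Gs T) (continuous_gs T), Gs_zero, sub_zero]

/-! ### bounds for `|φ|` -/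

theorem pi_half_bounds : 1.570796 ≤ Real.pi / 2 ∧ Real.pi / 2 ≤ 1.5707965 := by
  have h1 := Real.pi_gt_d6
  have h2 := Real.pi_lt_d6
  constructor <;> norm_num at h1 h2 ⊢ <;> linarith

theorem v_range (hN : GNum) {θ : ℝ} (h1 : 1 / 6 ≤ θ) (h2 : θ ≤ 1 / 4) :
    0.0471 ≤ vv θ ∧ vv θ ≤ 0.110737 := by
  obtain ⟨ha, hb, -⟩ := hN.1 θ h1 h2
  constructor
  · nlinarith
  · nlinarith

theorem zz_range {v z : ℝ} (hz : z = 2.6 * v ^ 2 + 0.0035) (h1 : 0.0471 ≤ v)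
    (h2 : v ≤ 0.110737) : 0 ≤ z ∧ z ≤ 0.04 := by
  constructor
  · nlinarith [sq_nonneg v]
  · nlinarith

structure Pt (t : ℝ) : Prop where
  t0 : 0 < t
  t2 : t ^ 2 ≤ 987 / 400
  c0 : 0 ≤ Real.cos t
  s0 : 0 ≤ Real.sin t

theorem pt {t : ℝ} (h : t ∈ Ioc 0 (Real.pi / 2)) : Pt t := by
  have hb := pi_half_bounds
  have ht : t ≤ 1.5707965 := h.2.trans hb.2
  refine ⟨h.1, ?_, ?_, ?_⟩
  · have := h.1
    norm_num at ht
    nlinarith
  · exact Real.cos_nonneg_of_neg_pi_div_two_le_of_le (by linarith [h.1, Real.pi_pos]) h.2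
  · exact Real.sin_nonneg_of_nonneg_of_le_pi h.1.le (by linarith [h.2, Real.pi_pos])

theorem fbound {θ : ℝ} {φ : ℝ → ℝ} (hF : Fn θ φ) (hv : 0.0471 ≤ vv θ) (hv2 : vv θ ≤ 0.110737)
    {t : ℝ} (hp : Pt t) :
    Real.cos t * (1 - vv θ * t ^ 2 / 2) - Real.sin t * (0.001 * t ^ 3 + zz θ * t ^ 4 / 36) ≤ |φ t| ∧
    |φ t| ≤ Real.cos t * (1 - vv θ * t ^ 2 / 2 + zz θ * t ^ 4 / 24) +
      Real.sin t * (0.001 * t ^ 3 + zz θ * t ^ 4 / 36) := by
  obtain ⟨A, B, hAB, hA1, hA2, -, hB1, hB2⟩ := hF.ab t hp.t0.le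
  have hz := zz_range (v := vv θ) (z := zz θ) rfl hv hv2
  have hc := hp.c0
  have hs := hp.s0
  have ht := hp.t0
  have ht2 := hp.t2
  have h3 : 0 ≤ t ^ 3 := by positivity
  have hζ : 0 ≤ zz θ * t ^ 4 := mul_nonneg hz.1 (by positivity)
  have hX : 0 ≤ 1 - vv θ * t ^ 2 / 2 := by nlinarith
  have m1 := mul_le_mul_of_nonneg_left hA1 hc
  have m2 := mul_le_mul_of_nonneg_left hA2 hc
  have m3 := mul_le_mul_of_nonneg_left hB1 hs
  have m4 := mul_le_mul_of_nonneg_left hB2 hs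
  have m5 : 0 ≤ Real.sin t * (0.001 * t ^ 3) := by positivity
  have m6 : 0 ≤ Real.sin t * (zz θ * t ^ 4) := mul_nonneg hs hζ
  have m7 : 0 ≤ Real.cos t * (zz θ * t ^ 4) := mul_nonneg hc hζ
  have m8 : 0 ≤ Real.cos t * (1 - vv θ * t ^ 2 / 2) := mul_nonneg hc hX
  constructor
  · refine le_trans ?_ (le_abs_self _)
    rw [hAB]
    linarith
  · rw [abs_le]
    constructor
    · rw [hAB]
      nlinarith
    · rw [hAB]
      nlinarith

/-! ### (i) and (ii) -/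

theorem int_one {θ : ℝ} {φ : ℝ → ℝ} (hF : Fn θ φ) :
    IntegrableOn (fun t => (1 - |φ t|) / t ^ 2) (Ioc 0 (Real.pi / 2)) := by
  have h2 := hF.int2.mono_set (Ioc_subset_Ioi_self : Ioc 0 (Real.pi / 2) ⊆ Ioi 0)
  refine Integrable.mono' h2 ?_ ?_
  · have hm := hF.meas
    have : Measurable (fun t => (1 - |φ t|) / t ^ 2) := by fun_prop
    exact this.aestronglyMeasurable
  · refine Filter.Eventually.of_forall fun t => ?_
    have h1 := hF.abs_le t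
    have h0 := abs_nonneg (φ t)
    rw [Real.norm_eq_abs, abs_of_nonneg (div_nonneg (by linarith) (by positivity))]
    apply div_le_div_of_nonneg_right _ (by positivity)
    rw [← sq_abs (φ t)]
    nlinarith

theorem q0_bound {θ : ℝ} {φ : ℝ → ℝ} (hF : Fn θ φ) (hv : 0.0471 ≤ vv θ)
    (hv2 : vv θ ≤ 0.110737) : 1.3695 + vv θ / 2 - 0.1332 * vv θ ^ 2 ≤ Q0 φ := by
  have hb := pi_half_bounds
  set v := vv θ with hvdef
  set z := zz θ with hzdef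
  have hz : z = 2.6 * v ^ 2 + 0.0035 := rfl
  have hz2 := zz_range hz hv hv2
  -- the lower function and its antiderivative
  set g : ℝ → ℝ := fun t => t ^ 0 * pe LC t + v / 2 * Real.cos t - z / 24 * (t ^ 2 * Real.cos t) -
    0.001 * (t * Real.sin t) - z / 36 * (t ^ 2 * Real.sin t) with hg
  set G : ℝ → ℝ := fun t => ia 0 LC t + v / 2 * Real.sin t -
    z / 24 * (t ^ 2 * Real.sin t + 2 * t * Real.cos t - 2 * Real.sin t) -
    0.001 * (Real.sin t - t * Real.cos t) -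
    z / 36 * (-(t ^ 2 * Real.cos t) + 2 * t * Real.sin t + 2 * Real.cos t) with hG
  have hgc : Continuous g := by
    have := continuous_pe LC
    rw [hg]
    fun_prop
  have hder : ∀ t, HasDerivAt G (g t) t := by
    intro t
    have s := Real.hasDerivAt_sin t
    have c := Real.hasDerivAt_cos t
    have i := hasDerivAt_id t
    have sq : HasDerivAt (fun t : ℝ => t ^ 2) (2 * t) t := by
      simpa using hasDerivAt_pow 2 t
    have d1 : HasDerivAt (fun t => t ^ 2 * Real.sin t + 2 * t * Real.cos t - 2 * Real.sin t)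
        (t ^ 2 * Real.cos t) t := by
      have := ((sq.mul s).add ((i.const_mul 2).mul c)).sub (s.const_mul 2)
      refine this.congr_deriv ?_
      simp
      ring
    have d2 : HasDerivAt (fun t => Real.sin t - t * Real.cos t) (t * Real.sin t) t := by
      have := s.sub (i.mul c)
      refine this.congr_deriv ?_
      simp
    have d3 : HasDerivAt (fun t => -(t ^ 2 * Real.cos t) + 2 * t * Real.sin t + 2 * Real.cos t)
        (t ^ 2 * Real.sin t) t := by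
      have := ((sq.mul c).neg.add ((i.const_mul 2).mul s)).add (c.const_mul 2)
      refine this.congr_deriv ?_
      simp
      ring
    exact (((((hasDerivAt_ia LC 0 t).add (s.const_mul (v / 2))).sub
      (d1.const_mul (z / 24))).sub (d2.const_mul 0.001)).sub (d3.const_mul (z / 36)))
  have hint : ∫ t in Ioc 0 (Real.pi / 2), g t = G (Real.pi / 2) - G 0 :=
    ftc (by positivity) hder hgc
  have hpt : ∀ t ∈ Ioc 0 (Real.pi / 2), g t ≤ (1 - |φ t|) / t ^ 2 := by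
    intro t ht
    have hp := pt ht
    obtain ⟨-, hf⟩ := fbound hF hv hv2 hp
    rw [le_div_iff₀ (pow_pos hp.t0 2)]
    have h8 := cos_c8 hp.t0.le
    have e : g t * t ^ 2 = 1 - c8 t + v * t ^ 2 / 2 * Real.cos t -
        z * t ^ 4 / 24 * Real.cos t - Real.sin t * (0.001 * t ^ 3 + z * t ^ 4 / 36) := by
      simp only [hg, LC, pe, c8]
      ring
    rw [e]
    change |φ t| ≤ Real.cos t * (1 - v * t ^ 2 / 2 + z * t ^ 4 / 24) +
      Real.sin t * (0.001 * t ^ 3 + z * t ^ 4 / 36) at hf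
    nlinarith
  have hmono : ∫ t in Ioc 0 (Real.pi / 2), g t ≤ ∫ t in Ioc 0 (Real.pi / 2), (1 - |φ t|) / t ^ 2 :=
    setIntegral_mono_on (intOn hgc) (int_one hF) measurableSet_Ioc hpt
  rw [hint] at hmono
  have hL := vLC hb.1 hb.2
  have hG0 : G 0 = -(z / 36 * 2) := by
    simp [hG, ia_zero]
  have hGb : G (Real.pi / 2) = ia 0 LC (Real.pi / 2) + v / 2 -
      z / 24 * ((Real.pi / 2) ^ 2 - 2) - 0.001 - z / 36 * (2 * (Real.pi / 2)) := by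
    simp only [hG, Real.sin_pi_div_two, Real.cos_pi_div_two]
    ring
  rw [hG0, hGb] at hmono
  have h2pi : 0.63661 ≤ 2 / Real.pi := by
    rw [le_div_iff₀ Real.pi_pos]
    have := hb.2
    norm_num at this ⊢
    linarith
  have hsq : (Real.pi / 2) ^ 2 ≤ 2.46741 := by
    have := hb.2
    have h0 : 0 ≤ Real.pi / 2 := by positivity
    norm_num at this ⊢
    nlinarith
  have e1 : z * ((Real.pi / 2) ^ 2 - 2) ≤ z * 0.46741 :=
    mul_le_mul_of_nonneg_left (by linarith) hz2.1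
  have e2 : z * (Real.pi / 2) ≤ z * 1.5707965 := mul_le_mul_of_nonneg_left hb.2 hz2.1
  unfold Q0
  have e3 : z * 0.46741 / 24 + z * 1.141593 / 36 ≤ 0.1332 * v ^ 2 + 0.00018 := by
    rw [hz]
    nlinarith [sq_nonneg v]
  nlinarith

/-! ### (iii) -/

theorem alg3 {c s E e f X ρ ζ ψ D CQ M K4 : ℝ} (hc0 : 0 ≤ c) (hc1 : c ≤ 1) (hs0 : 0 ≤ s)
    (hs1 : s ≤ 1) (hX0 : 0 ≤ X) (hX1 : X ≤ 0.14) (hE0 : 0 ≤ E) (hE1 : E ≤ 1)
    (he1 : E * (1 - X) ≤ e) (he2 : e ≤ E * (1 - X + X ^ 2 / 2))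
    (hρ : 0 ≤ ρ) (hζ : 0 ≤ ζ) (hψ : 0 ≤ ψ) (hf1 : c * (1 - X) - s * ρ ≤ f)
    (hf2 : f ≤ c * (1 - X + ζ) + s * ρ) (hEψ : E - 2 * c ≤ ψ) (hD : c * (E - c) ≤ D)
    (hCQ : c * E ≤ CQ) (hM : s * (2 * c - E) ≤ M) (hK : c * ζ ≤ K4) :
    f * (e - f) ≤ (1 - X) ^ 2 * D + X ^ 2 / 2 * CQ + ρ * M + (2.14 * ρ + K4) * ψ +
      (2 * ρ + ζ) * (X ^ 2 / 2) := by
  set p := c * (1 - X) with hp
  have hX2 : 0 ≤ 1 - X := by linarith
  have hp0 : 0 ≤ p := mul_nonneg hc0 hX2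
  have s1 : f * (e - f) ≤ p * (e - p) + (f - p) * (e - 2 * p) := by nlinarith [sq_nonneg (f - p)]
  have s2 : p * (e - p) ≤ (1 - X) ^ 2 * D + X ^ 2 / 2 * CQ := by
    have a1 : p * (e - p) ≤ p * (E * (1 - X + X ^ 2 / 2) - p) :=
      mul_le_mul_of_nonneg_left (by linarith) hp0
    have a2 : p * (E * (1 - X + X ^ 2 / 2) - p) =
        (1 - X) ^ 2 * (c * (E - c)) + X ^ 2 / 2 * ((1 - X) * (c * E)) := by
      rw [hp]
      ring
    have a3 : (1 - X) ^ 2 * (c * (E - c)) ≤ (1 - X) ^ 2 * D :=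
      mul_le_mul_of_nonneg_left hD (sq_nonneg _)
    have hcE : 0 ≤ c * E := mul_nonneg hc0 hE0
    have a4 : (1 - X) * (c * E) ≤ CQ := by nlinarith
    have a5 : X ^ 2 / 2 * ((1 - X) * (c * E)) ≤ X ^ 2 / 2 * CQ :=
      mul_le_mul_of_nonneg_left a4 (by positivity)
    linarith
  have hsρ : 0 ≤ s * ρ := mul_nonneg hs0 hρ
  have hcζ : 0 ≤ c * ζ := mul_nonneg hc0 hζ
  have hw : e - 2 * p ≤ ψ + X ^ 2 / 2 := by
    have b1 : (1 - X) * (E - 2 * c) ≤ (1 - X) * ψ := mul_le_mul_of_nonneg_left hEψ hX2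
    have b2 : (1 - X) * ψ ≤ ψ := by nlinarith
    have b3 : E * (X ^ 2 / 2) ≤ 1 * (X ^ 2 / 2) := mul_le_mul_of_nonneg_right hE1 (by positivity)
    nlinarith
  have hw0 : 0 ≤ ψ + X ^ 2 / 2 := by positivity
  have s3 : (f - p) * (e - 2 * p) ≤
      s * ρ * (2 * p - e) + (2 * (s * ρ) + c * ζ) * (ψ + X ^ 2 / 2) := by
    rcases le_total 0 (e - 2 * p) with h | h
    · have b1 : (f - p) * (e - 2 * p) ≤ (c * ζ + s * ρ) * (e - 2 * p) :=
        mul_le_mul_of_nonneg_right (by rw [hp]; linarith) h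
      have b2 : (2 * (s * ρ) + c * ζ) * (e - 2 * p) ≤ (2 * (s * ρ) + c * ζ) * (ψ + X ^ 2 / 2) :=
        mul_le_mul_of_nonneg_left hw (by positivity)
      nlinarith
    · have b1 : (p - f) * (2 * p - e) ≤ s * ρ * (2 * p - e) :=
        mul_le_mul_of_nonneg_right (by rw [hp]; linarith) (by linarith)
      have b2 : 0 ≤ (2 * (s * ρ) + c * ζ) * (ψ + X ^ 2 / 2) := by positivity
      nlinarith
  have s4 : s * ρ * (2 * p - e) ≤ ρ * M + 0.14 * ρ * ψ := by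
    have b0 : 2 * p - e ≤ (2 * c - E) + X * ψ := by
      have b1 : X * (E - 2 * c) ≤ X * ψ := mul_le_mul_of_nonneg_left hEψ hX0
      rw [hp]
      nlinarith
    have b2 : s * ρ * (2 * p - e) ≤ s * ρ * ((2 * c - E) + X * ψ) :=
      mul_le_mul_of_nonneg_left b0 hsρ
    have b3 : ρ * (s * (2 * c - E)) ≤ ρ * M := mul_le_mul_of_nonneg_left hM hρ
    have b4 : s * X ≤ 1 * 0.14 := mul_le_mul hs1 hX1 hX0 (by norm_num)
    have b5 : ρ * ψ * (s * X) ≤ ρ * ψ * (1 * 0.14) :=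
      mul_le_mul_of_nonneg_left b4 (mul_nonneg hρ hψ)
    linarith
  have s5 : (2 * (s * ρ) + c * ζ) * (ψ + X ^ 2 / 2) ≤ (2 * ρ + K4) * ψ +
      (2 * ρ + ζ) * (X ^ 2 / 2) := by
    have b1 : s * ρ ≤ ρ := by nlinarith
    have b2 : c * ζ ≤ ζ := by nlinarith
    have b3 : (2 * (s * ρ) + c * ζ) * ψ ≤ (2 * ρ + K4) * ψ :=
      mul_le_mul_of_nonneg_right (by linarith) hψ
    have b4 : (2 * (s * ρ) + c * ζ) * (X ^ 2 / 2) ≤ (2 * ρ + ζ) * (X ^ 2 / 2) :=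
      mul_le_mul_of_nonneg_right (by linarith) (by positivity)
    linarith
  linarith

theorem D_bound {t : ℝ} (hp : Pt t) :
    Real.cos t * (Real.exp (-(t ^ 2 / 2)) - Real.cos t) ≤
      c8 t * (q8 t - c8 t + 2 * (t ^ 10 / 3628800)) := by
  have h1 := cos_c8 hp.t0.le
  have h2 := c10_cos hp.t0.le
  have h3 := exp_q8 t
  have h4 := hp.c0
  have h5 : 0 < Real.exp (-(t ^ 2 / 2)) := Real.exp_pos _
  have h6 : 0 ≤ c8 t := h4.trans h1
  set E := Real.exp (-(t ^ 2 / 2))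
  have a1 : Real.cos t * E ≤ c8 t * E := mul_le_mul_of_nonneg_right h1 h5.le
  have a2 : c8 t * E ≤ c8 t * q8 t := mul_le_mul_of_nonneg_left h3 h6
  have a3 : c8 t * (c8 t - t ^ 10 / 3628800) ≤ c8 t * Real.cos t :=
    mul_le_mul_of_nonneg_left h2 h6
  nlinarith [sq_nonneg (Real.cos t - c8 t)]

theorem CQ_bound {t : ℝ} (hp : Pt t) :
    Real.cos t * Real.exp (-(t ^ 2 / 2)) ≤ c4 t * q4 t := by
  have h1 := cos_c4 hp.t0.le
  exact mul_le_mul h1 (exp_q4 t) (Real.exp_pos _).le (hp.c0.trans h1)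

theorem M_bound {t : ℝ} (hp : Pt t) :
    Real.sin t * (2 * Real.cos t - Real.exp (-(t ^ 2 / 2))) ≤
      s5 t * (2 * c8 t - e5 t) + t ^ 7 / 5040 := by
  have h1 := cos_c8 hp.t0.le
  have h2 := e5_exp t
  have h3 := sin_s5 hp.t0.le
  have h4 := s7_sin hp.t0.le
  have hs5 : 0 ≤ s5 t := hp.s0.trans h3
  have hc := hp.c0
  have hE1 : Real.exp (-(t ^ 2 / 2)) ≤ 1 := by
    rw [Real.exp_le_one_iff]
    have := sq_nonneg t
    linarith
  have h7 : 0 ≤ t ^ 7 / 5040 := by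
    have := hp.t0
    positivity
  set E := Real.exp (-(t ^ 2 / 2))
  have a1 : s5 t * (2 * Real.cos t - E) ≤ s5 t * (2 * c8 t - e5 t) :=
    mul_le_mul_of_nonneg_left (by linarith) hs5
  rcases le_total 0 (2 * Real.cos t - E) with h | h
  · have a2 : Real.sin t * (2 * Real.cos t - E) ≤ s5 t * (2 * Real.cos t - E) :=
      mul_le_mul_of_nonneg_right h3 h
    linarith
  · have a2 : Real.sin t * (2 * Real.cos t - E) ≤ (s5 t - t ^ 7 / 5040) * (2 * Real.cos t - E) :=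
      mul_le_mul_of_nonpos_right h4 h
    have a3 : t ^ 7 / 5040 * (E - 2 * Real.cos t) ≤ t ^ 7 / 5040 * 1 :=
      mul_le_mul_of_nonneg_left (by linarith) h7
    nlinarith

/-- the upper function for `G1` -/
noncomputable def T3 (v z : ℝ) : List (ℝ × ℕ × List ℝ) :=
  [(1, 2, L0), (-v, 4, L0), (v ^ 2 / 4, 6, L0), (v ^ 2 / 8, 2, LK), (1 / 1000, 2, LS),
    (z / 36, 3, LS), (0.00342 * z / 24, 12, LC4), (2.14 * 0.00342 / 1000, 11, L1),
    (2.14 * 0.00342 * z / 36, 12, L1), (v ^ 2 / 8 / 500, 5, L1),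
    (v ^ 2 / 8 * (z / 18 + z / 24), 6, L1)]

theorem T3_eq (v z t : ℝ) : t ^ 2 * gs (T3 v z) t =
    (1 - v * t ^ 2 / 2) ^ 2 * (c8 t * (q8 t - c8 t + 2 * (t ^ 10 / 3628800))) +
    (v * t ^ 2 / 2) ^ 2 / 2 * (c4 t * q4 t) +
    (0.001 * t ^ 3 + z * t ^ 4 / 36) * (s5 t * (2 * c8 t - e5 t) + t ^ 7 / 5040) +
    (2.14 * (0.001 * t ^ 3 + z * t ^ 4 / 36) + c4 t * (z * t ^ 4 / 24)) * (0.00342 * t ^ 10) +
    (2 * (0.001 * t ^ 3 + z * t ^ 4 / 36) + z * t ^ 4 / 24) * ((v * t ^ 2 / 2) ^ 2 / 2) := by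
  simp only [T3, gs, L0, LK, LS, LC4, L1, pe, c8, q8, c4, q4, s5, e5]
  ring

theorem exp_split (v t : ℝ) : Real.exp (-((1 + v) * t ^ 2 / 2)) =
    Real.exp (-(t ^ 2 / 2)) * Real.exp (-(v * t ^ 2 / 2)) := by
  rw [← Real.exp_add]
  congr 1
  ring

theorem X_range {v t : ℝ} (hv : 0.0471 ≤ v) (hv2 : v ≤ 0.110737) (hp : Pt t) :
    0 ≤ v * t ^ 2 / 2 ∧ v * t ^ 2 / 2 ≤ 0.14 := by
  have h := hp.t2
  have h0 := sq_nonneg t
  constructor
  · have : 0 ≤ v := by linarith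
    positivity
  · nlinarith

theorem G1_pt {θ : ℝ} {φ : ℝ → ℝ} (hF : Fn θ φ) (hv : 0.0471 ≤ vv θ) (hv2 : vv θ ≤ 0.110737)
    {t : ℝ} (hp : Pt t) :
    |φ t| * (Real.exp (-((1 + vv θ) * t ^ 2 / 2)) - |φ t|) / t ^ 2 ≤ gs (T3 (vv θ) (zz θ)) t := by
  have hX := X_range hv hv2 hp
  have hz := zz_range (v := vv θ) (z := zz θ) rfl hv hv2
  obtain ⟨f1, f2⟩ := fbound hF hv hv2 hp
  have ht := hp.t0
  rw [div_le_iff₀ (pow_pos ht 2), mul_comm (gs _ _), T3_eq]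
  have hE0 : 0 < Real.exp (-(t ^ 2 / 2)) := Real.exp_pos _
  have hE1 : Real.exp (-(t ^ 2 / 2)) ≤ 1 := by
    rw [Real.exp_le_one_iff]
    have := sq_nonneg t
    linarith
  have hc4 := cos_c4 ht.le
  have hζ : 0 ≤ zz θ * t ^ 4 / 24 := div_nonneg (mul_nonneg hz.1 (by positivity)) (by norm_num)
  have hρ : 0 ≤ 0.001 * t ^ 3 + zz θ * t ^ 4 / 36 := by
    have h1 : 0 ≤ 0.001 * t ^ 3 := by positivity
    have h2 : 0 ≤ zz θ * t ^ 4 := mul_nonneg hz.1 (by positivity)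
    linarith
  apply alg3 (c := Real.cos t) (s := Real.sin t) (E := Real.exp (-(t ^ 2 / 2))) hp.c0
    (Real.cos_le_one t) hp.s0 (Real.sin_le_one t) hX.1 hX.2 hE0.le hE1
  · rw [exp_split]
    exact mul_le_mul_of_nonneg_left (exp_lo1 hX.1) hE0.le
  · rw [exp_split]
    exact mul_le_mul_of_nonneg_left (exp_hi2 hX.1) hE0.le
  · exact hρ
  · exact hζ
  · positivity
  · exact f1
  · exact f2
  · exact psi_bound ht.le hp.t2
  · exact D_bound hp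
  · exact CQ_bound hp
  · exact M_bound hp
  · exact mul_le_mul_of_nonneg_right hc4 hζ

theorem T3_val {v z b : ℝ} (hv : 0.0471 ≤ v) (hv2 : v ≤ 0.110737) (hz : z = 2.6 * v ^ 2 + 0.0035)
    (h1 : 1.570796 ≤ b) (h2 : b ≤ 1.5707965) : Gs (T3 v z) b ≤ 0.0314 - 0.0195 * v := by
  have hz2 := zz_range hz hv hv2
  simp only [T3, Gs]
  have i1 := vI0 h1 h2
  have i2 : v * 0.029607 ≤ v * ia 4 L0 b := mul_le_mul_of_nonneg_left (vI2 h1 h2) (by linarith)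
  have i3 : v ^ 2 / 4 * ia 6 L0 b ≤ v ^ 2 / 4 * 0.037953 :=
    mul_le_mul_of_nonneg_left (vI4 h1 h2) (by positivity)
  have i4 : v ^ 2 / 8 * ia 2 LK b ≤ v ^ 2 / 8 * 0.295205 :=
    mul_le_mul_of_nonneg_left (vK h1 h2) (by positivity)
  have i5 := va1 h1 h2
  have i6 : z / 36 * ia 3 LS b ≤ z / 36 * 0.19393 :=
    mul_le_mul_of_nonneg_left (va2 h1 h2) (by linarith)
  have i7 : 0.00342 * z / 24 * ia 12 LC4 b ≤ 0.00342 * z / 24 * 3.4023 :=
    mul_le_mul_of_nonneg_left (vb12 h1 h2) (by linarith)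
  have i8 := vp11 h1 h2
  have i9 : 2.14 * 0.00342 * z / 36 * ia 12 L1 b ≤ 2.14 * 0.00342 * z / 36 * 27.266 :=
    mul_le_mul_of_nonneg_left (vp12 h1 h2) (by linarith)
  have i10 : v ^ 2 / 8 / 500 * ia 5 L1 b ≤ v ^ 2 / 8 / 500 * 2.50363 :=
    mul_le_mul_of_nonneg_left (vp5 h1 h2) (by positivity)
  have i11 : v ^ 2 / 8 * (z / 18 + z / 24) * ia 6 L1 b ≤ v ^ 2 / 8 * (z / 18 + z / 24) * 3.3709 :=
    mul_le_mul_of_nonneg_left (vp6 h1 h2)
      (mul_nonneg (by positivity) (by linarith))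
  have hv4 : v ^ 2 * z ≤ v ^ 2 * 0.04 := mul_le_mul_of_nonneg_left hz2.2 (by positivity)
  have i12 : v ^ 2 / 8 * (z / 18 + z / 24) * 3.3709 ≤ v ^ 2 * 0.0017 := by nlinarith
  have hq : 0 ≤ (v - 0.0471) * (0.110737 - v) := mul_nonneg (by linarith) (by linarith)
  rw [hz] at i6 i7 i9 ⊢
  rw [hz] at i11 i12
  nlinarith

theorem g1_bound {θ : ℝ} {φ : ℝ → ℝ} (hF : Fn θ φ) (hv : 0.0471 ≤ vv θ)
    (hv2 : vv θ ≤ 0.110737) : G1 θ φ ≤ 0.0314 - 0.0195 * vv θ := by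
  have hb := pi_half_bounds
  unfold G1
  by_cases h : IntegrableOn (fun t => |φ t| * (Real.exp (-((1 + vv θ) * t ^ 2 / 2)) - |φ t|) / t ^ 2)
      (Ioc 0 (Real.pi / 2))
  · have hmono := setIntegral_mono_on h (intOn (continuous_gs (T3 (vv θ) (zz θ)))) measurableSet_Ioc
      (fun t ht => G1_pt hF hv hv2 (pt ht))
    rw [int_gs (T3 (vv θ) (zz θ)) (by positivity)] at hmono
    exact hmono.trans (T3_val hv hv2 rfl hb.1 hb.2)
  · rw [integral_undef h]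
    linarith

/-! ### (iv) -/

noncomputable def T4 (v z : ℝ) : List (ℝ × ℕ × List ℝ) :=
  [(1, 2, LKK), (-v, 4, LKK), (3 / 8 * v ^ 2, 6, LKK), (-(v ^ 3 / 12), 8, LKK),
    (-(1 / 1000), 6, LD), (-(z / 36), 7, LD)]

theorem T4_eq (v z t : ℝ) : gs (T4 v z) t =
    t ^ 2 * (1 - 0.0271 * t ^ 4) * (c6 t * e5 t * (1 - 2 * (v * t ^ 2 / 2) +
      3 / 2 * (v * t ^ 2 / 2) ^ 2 - 2 / 3 * (v * t ^ 2 / 2) ^ 3) -
      s5 t * (0.001 * t ^ 3 + z * t ^ 4 / 36) * q4 t) := by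
  simp only [T4, gs, LKK, LD, pe, c6, e5, s5, q4]
  ring

theorem alg4 {c s E e f X ρ C5 E5 S5 Q4 : ℝ} (hc0 : 0 ≤ c) (hs0 : 0 ≤ s)
    (hX0 : 0 ≤ X) (hX1 : X ≤ 0.14) (hE0 : 0 < E)
    (he1 : E * (1 - X + X ^ 2 / 2 - X ^ 3 / 6) ≤ e) (he2 : e ≤ E)
    (hρ : 0 ≤ ρ) (hf1 : c * (1 - X) - s * ρ ≤ f) (hC : C5 ≤ c) (hE5 : E5 ≤ E) (hE50 : 0 ≤ E5)
    (hS : s ≤ S5) (hQ : E ≤ Q4) :
    C5 * E5 * (1 - 2 * X + 3 / 2 * X ^ 2 - 2 / 3 * X ^ 3) - S5 * ρ * Q4 ≤ f * e := by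
  have hX3 : 0 ≤ X ^ 3 := by positivity
  have hX2 : 0 ≤ X ^ 2 := by positivity
  have hX3' : X ^ 3 ≤ X ^ 2 := by nlinarith
  have hm : 0 ≤ 1 - X + X ^ 2 / 2 - X ^ 3 / 6 := by linarith
  have he0 : 0 ≤ e := le_trans (mul_nonneg hE0.le hm) he1
  have hM : 0 ≤ 1 - 2 * X + 3 / 2 * X ^ 2 - 2 / 3 * X ^ 3 := by linarith
  have a1 : (c * (1 - X) - s * ρ) * e ≤ f * e := mul_le_mul_of_nonneg_right hf1 he0
  have a2 : c * (1 - X) * (E * (1 - X + X ^ 2 / 2 - X ^ 3 / 6)) ≤ c * (1 - X) * e :=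
    mul_le_mul_of_nonneg_left he1 (mul_nonneg hc0 (by linarith))
  have a3 : c * (1 - X) * (E * (1 - X + X ^ 2 / 2 - X ^ 3 / 6)) =
      c * E * (1 - 2 * X + 3 / 2 * X ^ 2 - 2 / 3 * X ^ 3) + c * E * (X ^ 4 / 6) := by ring
  have a4 : 0 ≤ c * E * (X ^ 4 / 6) := mul_nonneg (mul_nonneg hc0 hE0.le) (by positivity)
  have a5 : C5 * E5 ≤ c * E5 := mul_le_mul_of_nonneg_right hC hE50
  have a6 : c * E5 ≤ c * E := mul_le_mul_of_nonneg_left hE5 hc0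
  have a7 : C5 * E5 * (1 - 2 * X + 3 / 2 * X ^ 2 - 2 / 3 * X ^ 3) ≤
      c * E * (1 - 2 * X + 3 / 2 * X ^ 2 - 2 / 3 * X ^ 3) :=
    mul_le_mul_of_nonneg_right (a5.trans a6) hM
  have a8 : s * ρ ≤ S5 * ρ := mul_le_mul_of_nonneg_right hS hρ
  have a9 : s * ρ * e ≤ S5 * ρ * Q4 :=
    mul_le_mul a8 (he2.trans hQ) he0 (mul_nonneg (hs0.trans hS) hρ)
  nlinarith

theorem e5_nonneg {t : ℝ} (hp : Pt t) : 0 ≤ e5 t := by
  have h := hp.t2
  have h0 := sq_nonneg t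
  have hy2 : (t ^ 2) ^ 2 ≤ 6.0886 := by nlinarith
  have hy3 : (t ^ 2) ^ 3 ≤ 15.03 := by
    have : (t ^ 2) ^ 3 = (t ^ 2) ^ 2 * t ^ 2 := by ring
    rw [this]
    calc (t ^ 2) ^ 2 * t ^ 2 ≤ 6.0886 * (987 / 400) := mul_le_mul hy2 h h0 (by norm_num)
      _ ≤ 15.03 := by norm_num
  have h4 : 0 ≤ (t ^ 2) ^ 4 * (1 / 384 - t ^ 2 / 3840) :=
    mul_nonneg (by positivity) (by linarith)
  have e : e5 t = 1 / 2 + (t ^ 2 - 2) ^ 2 / 8 - (t ^ 2) ^ 3 / 48 +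
      (t ^ 2) ^ 4 * (1 / 384 - t ^ 2 / 3840) := by
    unfold e5
    ring
  rw [e]
  have := sq_nonneg (t ^ 2 - 2)
  linarith

theorem W_nonneg {t : ℝ} (hp : Pt t) : 0 ≤ t ^ 2 * (1 - 0.0271 * t ^ 4) := by
  have h := hp.t2
  have h0 := sq_nonneg t
  have hy2 : t ^ 4 ≤ 6.0886 := by
    have : t ^ 4 = (t ^ 2) ^ 2 := by ring
    rw [this]
    nlinarith
  exact mul_nonneg h0 (by linarith)

theorem KK_pt {θ : ℝ} {φ : ℝ → ℝ} (hF : Fn θ φ) (hv : 0.0471 ≤ vv θ) (hv2 : vv θ ≤ 0.110737)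
    {t : ℝ} (hp : Pt t) :
    gs (T4 (vv θ) (zz θ)) t ≤
      t ^ 2 * |φ t| * Real.exp (-((1 + vv θ) * t ^ 2 / 2)) * (1 - 0.0271 * t ^ 4) := by
  have hX := X_range hv hv2 hp
  have hz := zz_range (v := vv θ) (z := zz θ) rfl hv hv2
  obtain ⟨f1, f2⟩ := fbound hF hv hv2 hp
  have ht := hp.t0
  have hE0 : 0 < Real.exp (-(t ^ 2 / 2)) := Real.exp_pos _
  have hρ : 0 ≤ 0.001 * t ^ 3 + zz θ * t ^ 4 / 36 := by
    have h1 : 0 ≤ 0.001 * t ^ 3 := by positivity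
    have h2 : 0 ≤ zz θ * t ^ 4 := mul_nonneg hz.1 (by positivity)
    linarith
  have he1 : Real.exp (-(t ^ 2 / 2)) * (1 - vv θ * t ^ 2 / 2 + (vv θ * t ^ 2 / 2) ^ 2 / 2 -
      (vv θ * t ^ 2 / 2) ^ 3 / 6) ≤ Real.exp (-((1 + vv θ) * t ^ 2 / 2)) := by
    rw [exp_split]
    exact mul_le_mul_of_nonneg_left (exp_lo3 hX.1) hE0.le
  have he2 : Real.exp (-((1 + vv θ) * t ^ 2 / 2)) ≤ Real.exp (-(t ^ 2 / 2)) := by
    rw [Real.exp_le_exp]
    linarith [hX.1]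
  have h := alg4 hp.c0 hp.s0 hX.1 hX.2 hE0 he1 he2 hρ f1 (c6_cos ht.le) (e5_exp t)
    (e5_nonneg hp) (sin_s5 ht.le) (exp_q4 t)
  have h2 := mul_le_mul_of_nonneg_left h (W_nonneg hp)
  rw [T4_eq]
  refine h2.trans (le_of_eq ?_)
  ring

theorem T4_val {v z b : ℝ} (hv : 0.0471 ≤ v) (hv2 : v ≤ 0.110737) (hz : z = 2.6 * v ^ 2 + 0.0035)
    (h1 : 1.570796 ≤ b) (h2 : b ≤ 1.5707965) : 0.2813 - 0.2375 * v ≤ Gs (T4 v z) b := by
  have hz2 := zz_range hz hv hv2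
  simp only [T4, Gs]
  have i1 := vk0 h1 h2
  have i2 : v * ia 4 LKK b ≤ v * 0.241134 := mul_le_mul_of_nonneg_left (vk1 h1 h2) (by linarith)
  have i3 : 3 / 8 * v ^ 2 * 0.285635 ≤ 3 / 8 * v ^ 2 * ia 6 LKK b :=
    mul_le_mul_of_nonneg_left (vk2 h1 h2) (by positivity)
  have i4 : v ^ 3 / 12 * ia 8 LKK b ≤ v ^ 3 / 12 * 0.40396 :=
    mul_le_mul_of_nonneg_left (vk3 h1 h2) (by have : 0 ≤ v := by linarith
                                              positivity)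
  have i5 := vd6 h1 h2
  have i6 : z / 36 * ia 7 LD b ≤ z / 36 * 1.16573 :=
    mul_le_mul_of_nonneg_left (vd7 h1 h2) (by linarith)
  have hv3 : v ^ 3 ≤ 0.110737 * v ^ 2 := by nlinarith [sq_nonneg v]
  rw [hz] at i6 ⊢
  nlinarith

theorem kk_bound {θ : ℝ} {φ : ℝ → ℝ} (hF : Fn θ φ) (hv : 0.0471 ≤ vv θ)
    (hv2 : vv θ ≤ 0.110737) : 0.2813 - 0.2375 * vv θ ≤ KK θ φ := by
  have hb := pi_half_bounds
  unfold KK
  have hi : IntegrableOn (fun t => t ^ 2 * |φ t| * Real.exp (-((1 + vv θ) * t ^ 2 / 2)) *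
      (1 - 0.0271 * t ^ 4)) (Ioc 0 (Real.pi / 2)) := by
    refine Measure.integrableOn_of_bounded (M := 3) (by simp) ?_ ?_
    · have hm := hF.meas
      have : Measurable (fun t => t ^ 2 * |φ t| * Real.exp (-((1 + vv θ) * t ^ 2 / 2)) *
        (1 - 0.0271 * t ^ 4)) := by fun_prop
      exact this.aestronglyMeasurable
    · rw [ae_restrict_iff' measurableSet_Ioc]
      refine Filter.Eventually.of_forall fun t ht => ?_
      have hp := pt ht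
      have hW := W_nonneg hp
      have h1 := hF.abs_le t
      have h0 := abs_nonneg (φ t)
      have hX := X_range hv hv2 hp
      have he0 : 0 < Real.exp (-((1 + vv θ) * t ^ 2 / 2)) := Real.exp_pos _
      have he1 : Real.exp (-((1 + vv θ) * t ^ 2 / 2)) ≤ 1 := by
        rw [Real.exp_le_one_iff]
        have := sq_nonneg t
        linarith [hX.1]
      have e : t ^ 2 * |φ t| * Real.exp (-((1 + vv θ) * t ^ 2 / 2)) * (1 - 0.0271 * t ^ 4) =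
          t ^ 2 * (1 - 0.0271 * t ^ 4) * (|φ t| * Real.exp (-((1 + vv θ) * t ^ 2 / 2))) := by ring
      rw [e, Real.norm_eq_abs, abs_of_nonneg (mul_nonneg hW (mul_nonneg h0 he0.le))]
      have h3 : |φ t| * Real.exp (-((1 + vv θ) * t ^ 2 / 2)) ≤ 1 * 1 :=
        mul_le_mul h1 he1 he0.le (by norm_num)
      have h4 : t ^ 2 * (1 - 0.0271 * t ^ 4) ≤ 3 := by
        have := hp.t2
        have h5 : 0 ≤ t ^ 2 * t ^ 4 := by positivity
        nlinarith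
      calc _ ≤ 3 * (1 * 1) := mul_le_mul h4 h3 (mul_nonneg h0 he0.le) (by norm_num)
        _ = 3 := by norm_num
  have hmono := setIntegral_mono_on (intOn (continuous_gs (T4 (vv θ) (zz θ)))) hi measurableSet_Ioc
      (fun t ht => KK_pt hF hv hv2 (pt ht))
  rw [int_gs (T4 (vv θ) (zz θ)) (by positivity)] at hmono
  exact (T4_val hv hv2 rfl hb.1 hb.2).trans hmono

theorem gQ : GQ := by
  intro hN θ φ hF
  obtain ⟨hv, hv2⟩ := v_range hN hF.lo hF.hi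
  exact ⟨int_one hF, q0_bound hF hv hv2, g1_bound hF hv hv2, kk_bound hF hv hv2⟩

end Pool.Agent.Helper11.Pq
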