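import Pool.Agent.Helper53.Pq.Goals

/-! Taylor bounds for `sin`, `cos`, `exp (-x)`, and integrals of polynomials. -/

namespace Pool.Agent.Helper11.Pq

open MeasureTheory Set Finset

theorem nonneg_of_deriv {f f' : ℝ → ℝ} (h0 : 0 ≤ f 0) (hf : ∀ t, HasDerivAt f (f' t) t)
    (hp : ∀ t, 0 ≤ t → 0 ≤ f' t) : ∀ t, 0 ≤ t → 0 ≤ f t := by
  intro t ht
  have hm : MonotoneOn f (Set.Ici 0) := by
    apply monotoneOn_of_deriv_nonneg (convex_Ici 0)
    · exact fun x _ => (hf x).continuousAt.continuousWithinAt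
    · exact fun x _ => (hf x).differentiableAt.differentiableWithinAt
    · intro x hx
      rw [interior_Ici] at hx
      rw [(hf x).deriv]
      exact hp x (le_of_lt hx)
  exact h0.trans (hm (by simp) ht ht)

/-- Taylor polynomial of `cos`, `n` terms. -/
noncomputable def Cn (n : ℕ) (t : ℝ) : ℝ := ∑ j ∈ range n, (-1) ^ j * t ^ (2 * j) / (2 * j).factorial
noncomputable def Sn (n : ℕ) (t : ℝ) : ℝ :=
  ∑ j ∈ range n, (-1) ^ j * t ^ (2 * j + 1) / (2 * j + 1).factorial
noncomputable def En (n : ℕ) (t : ℝ) : ℝ := ∑ j ∈ range n, (-1) ^ j * t ^ j / j.factorial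

theorem Cn_zero (n : ℕ) : Cn (n + 1) 0 = 1 := by
  induction n with
  | zero => simp [Cn]
  | succ n ih =>
    rw [Cn, sum_range_succ]
    rw [Cn] at ih
    rw [ih]
    simp

theorem Sn_zero (n : ℕ) : Sn n 0 = 0 := by
  simp [Sn]

theorem En_zero (n : ℕ) : En (n + 1) 0 = 1 := by
  induction n with
  | zero => simp [En]
  | succ n ih =>
    rw [En, sum_range_succ]
    rw [En] at ih
    rw [ih]
    simp

theorem hasDerivAt_Sn (n : ℕ) (t : ℝ) : HasDerivAt (Sn n) (Cn n t) t := by
  induction n with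
  | zero =>
    have e : Sn 0 = fun _ => (0 : ℝ) := by
      funext x
      simp [Sn]
    have e2 : Cn 0 t = 0 := by simp [Cn]
    rw [e, e2]
    exact hasDerivAt_const t (0 : ℝ)
  | succ n ih =>
    have h1 : HasDerivAt (fun x : ℝ => (-1) ^ n * x ^ (2 * n + 1) / ((2 * n + 1).factorial : ℝ))
        ((-1) ^ n * t ^ (2 * n) / (2 * n).factorial) t := by
      have := ((hasDerivAt_pow (2 * n + 1) t).const_mul ((-1 : ℝ) ^ n)).div_const
        ((2 * n + 1).factorial : ℝ)
      refine this.congr_deriv ?_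
      rw [Nat.factorial_succ]
      have h3 : ((2 * n).factorial : ℝ) ≠ 0 := by positivity
      have h4 : (((2 * n + 1 : ℕ)) : ℝ) ≠ 0 := by positivity
      push_cast at h4 ⊢
      field_simp
    have h2 := ih.add h1
    have e1 : Sn (n + 1) = Sn n + fun x : ℝ => (-1) ^ n * x ^ (2 * n + 1) / ((2 * n + 1).factorial : ℝ) := by
      funext x
      simp [Sn, sum_range_succ]
    have e2 : Cn (n + 1) t = Cn n t + (-1) ^ n * t ^ (2 * n) / (2 * n).factorial := by
      simp [Cn, sum_range_succ]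
    rw [e1, e2]
    exact h2

theorem hasDerivAt_Cn (n : ℕ) (t : ℝ) : HasDerivAt (Cn (n + 1)) (-(Sn n t)) t := by
  induction n with
  | zero =>
    have e : Cn (0 + 1) = fun _ => (1 : ℝ) := by
      funext x
      simp [Cn]
    rw [e]
    simpa [Sn] using hasDerivAt_const t (1 : ℝ)
  | succ n ih =>
    have h1 : HasDerivAt (fun x : ℝ => (-1) ^ (n + 1) * x ^ (2 * (n + 1)) /
        ((2 * (n + 1)).factorial : ℝ))
        (-((-1) ^ n * t ^ (2 * n + 1) / (2 * n + 1).factorial)) t := by
      have := ((hasDerivAt_pow (2 * (n + 1)) t).const_mul ((-1 : ℝ) ^ (n + 1))).div_const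
        ((2 * (n + 1)).factorial : ℝ)
      refine this.congr_deriv ?_
      rw [show 2 * (n + 1) = (2 * n + 1) + 1 by ring, Nat.factorial_succ (2 * n + 1)]
      have h3 : ((2 * n + 1).factorial : ℝ) ≠ 0 := by positivity
      have h4 : (((2 * n + 1 + 1 : ℕ)) : ℝ) ≠ 0 := by positivity
      push_cast at h4 ⊢
      field_simp
      ring
    have h2 := ih.add h1
    have e1 : Cn (n + 1 + 1) = Cn (n + 1) + fun x : ℝ => (-1) ^ (n + 1) * x ^ (2 * (n + 1)) /
        ((2 * (n + 1)).factorial : ℝ) := by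
      funext x
      simp [Cn, sum_range_succ]
    have e2 : -Sn (n + 1) t = -Sn n t + -((-1) ^ n * t ^ (2 * n + 1) / (2 * n + 1).factorial) := by
      simp [Sn, sum_range_succ]
      ring
    rw [e1, e2]
    exact h2

theorem hasDerivAt_En (n : ℕ) (t : ℝ) : HasDerivAt (En (n + 1)) (-(En n t)) t := by
  induction n with
  | zero =>
    have e : En (0 + 1) = fun _ => (1 : ℝ) := by
      funext x
      simp [En]
    rw [e]
    simpa [En] using hasDerivAt_const t (1 : ℝ)
  | succ n ih =>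
    have h1 : HasDerivAt (fun x : ℝ => (-1) ^ (n + 1) * x ^ (n + 1) / ((n + 1).factorial : ℝ))
        (-((-1) ^ n * t ^ n / n.factorial)) t := by
      have := ((hasDerivAt_pow (n + 1) t).const_mul ((-1 : ℝ) ^ (n + 1))).div_const
        ((n + 1).factorial : ℝ)
      refine this.congr_deriv ?_
      rw [Nat.factorial_succ]
      have h3 : (n.factorial : ℝ) ≠ 0 := by positivity
      have h4 : ((n + 1 : ℕ) : ℝ) ≠ 0 := by positivity
      push_cast at h4 ⊢
      field_simp
      ring
    have h2 := ih.add h1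
    have e1 : En (n + 1 + 1) = En (n + 1) + fun x : ℝ => (-1) ^ (n + 1) * x ^ (n + 1) /
        ((n + 1).factorial : ℝ) := by
      funext x
      simp [En, sum_range_succ]
    have e2 : -En (n + 1) t = -En n t + -((-1) ^ n * t ^ n / n.factorial) := by
      simp [En, sum_range_succ]
      ring
    rw [e1, e2]
    exact h2

theorem cos_sin_taylor (n : ℕ) : (∀ t : ℝ, 0 ≤ t → 0 ≤ (-1) ^ (n + 1) * (Real.cos t - Cn (n + 1) t)) ∧
    (∀ t : ℝ, 0 ≤ t → 0 ≤ (-1) ^ (n + 1) * (Real.sin t - Sn (n + 1) t)) := by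
  have step : ∀ n : ℕ, (∀ t : ℝ, 0 ≤ t → 0 ≤ (-1) ^ (n + 1) * (Real.cos t - Cn (n + 1) t)) →
      (∀ t : ℝ, 0 ≤ t → 0 ≤ (-1) ^ (n + 1) * (Real.sin t - Sn (n + 1) t)) := by
    intro n h
    apply nonneg_of_deriv (f' := fun t => (-1) ^ (n + 1) * (Real.cos t - Cn (n + 1) t)) _ _ h
    · simp [Sn_zero]
    · intro t
      exact ((Real.hasDerivAt_sin t).sub (hasDerivAt_Sn (n + 1) t)).const_mul _
  induction n with
  | zero =>
    have h0 : ∀ t : ℝ, 0 ≤ t → 0 ≤ (-1) ^ (0 + 1) * (Real.cos t - Cn (0 + 1) t) := by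
      intro t _
      have := Real.cos_le_one t
      simp [Cn]
      linarith
    exact ⟨h0, step 0 h0⟩
  | succ n ih =>
    have h0 : ∀ t : ℝ, 0 ≤ t → 0 ≤ (-1) ^ (n + 1 + 1) * (Real.cos t - Cn (n + 1 + 1) t) := by
      apply nonneg_of_deriv (f' := fun t => (-1) ^ (n + 1) * (Real.sin t - Sn (n + 1) t)) _ _ ih.2
      · rw [Cn_zero]
        simp
      · intro t
        have := ((Real.hasDerivAt_cos t).sub (hasDerivAt_Cn (n + 1) t)).const_mul
          ((-1 : ℝ) ^ (n + 1 + 1))
        refine this.congr_deriv ?_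
        rw [pow_succ (-1 : ℝ) (n + 1)]
        ring
    exact ⟨h0, step (n + 1) h0⟩

theorem exp_taylor (n : ℕ) : ∀ t : ℝ, 0 ≤ t → 0 ≤ (-1) ^ n * (Real.exp (-t) - En n t) := by
  induction n with
  | zero =>
    intro t _
    simp [En]
    positivity
  | succ n ih =>
    apply nonneg_of_deriv (f' := fun t => (-1) ^ n * (Real.exp (-t) - En n t)) _ _ ih
    · rw [En_zero]
      simp
    · intro t
      have h1 : HasDerivAt (fun t : ℝ => Real.exp (-t)) (-Real.exp (-t)) t := by
        have := (hasDerivAt_neg t).exp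
        simpa using this
      have := (h1.sub (hasDerivAt_En n t)).const_mul ((-1 : ℝ) ^ (n + 1))
      refine this.congr_deriv ?_
      rw [pow_succ]
      ring

/-! ### polynomials -/

/-- `pe [a0, a1, ..] t = a0 + a1 t² + ..` -/
def pe : List ℝ → ℝ → ℝ
  | [], _ => 0
  | a :: l, t => a + t ^ 2 * pe l t

/-- antiderivative of `t^n * pe l t` -/
noncomputable def ia : ℕ → List ℝ → ℝ → ℝ
  | _, [], _ => 0
  | n, a :: l, b => a * (b ^ (n + 1) / (n + 1)) + ia (n + 2) l b

theorem hasDerivAt_ia (l : List ℝ) : ∀ (n : ℕ) (b : ℝ), HasDerivAt (ia n l) (b ^ n * pe l b) b := by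
  induction l with
  | nil =>
    intro n b
    have e : ia n [] = fun _ => (0 : ℝ) := by
      funext x
      simp [ia]
    rw [e]
    simpa [pe] using hasDerivAt_const b (0 : ℝ)
  | cons a l ih =>
    intro n b
    have h1 : HasDerivAt (fun b : ℝ => a * (b ^ (n + 1) / ((n : ℝ) + 1))) (a * b ^ n) b := by
      have := ((hasDerivAt_pow (n + 1) b).div_const ((n : ℝ) + 1)).const_mul a
      refine this.congr_deriv ?_
      have h4 : ((n : ℝ) + 1) ≠ 0 := by positivity
      push_cast
      field_simp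
    have e : ia n (a :: l) = (fun b : ℝ => a * (b ^ (n + 1) / ((n : ℝ) + 1))) + ia (n + 2) l := by
      funext x
      simp [ia]
    rw [e]
    have := h1.add (ih (n + 2) b)
    refine this.congr_deriv ?_
    simp [pe]
    ring

theorem ia_zero (l : List ℝ) : ∀ n : ℕ, ia n l 0 = 0 := by
  induction l with
  | nil => intro n; simp [ia]
  | cons a l ih =>
    intro n
    simp [ia, ih]

theorem continuous_pe (l : List ℝ) : Continuous (pe l) := by
  induction l with
  | nil => simpa [pe] using (continuous_const : Continuous fun _ : ℝ => (0 : ℝ))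
  | cons a l ih =>
    have e : pe (a :: l) = fun t => a + t ^ 2 * pe l t := by
      funext t
      simp [pe]
    rw [e]
    fun_prop

/-- the fundamental theorem in the form used. -/
theorem ftc {F g : ℝ → ℝ} {b : ℝ} (hb : 0 ≤ b) (hF : ∀ t, HasDerivAt F (g t) t)
    (hg : Continuous g) : ∫ t in Set.Ioc 0 b, g t = F b - F 0 := by
  rw [← intervalIntegral.integral_of_le hb]
  exact intervalIntegral.integral_eq_sub_of_hasDerivAt (fun x _ => hF x)
    (hg.intervalIntegrable 0 b)

theorem intOn {g : ℝ → ℝ} {b : ℝ} (hg : Continuous g) : IntegrableOn g (Set.Ioc 0 b) :=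
  (hg.integrableOn_Icc (a := 0) (b := b)).mono_set Set.Ioc_subset_Icc_self

end Pool.Agent.Helper11.Pq
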