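import Pool.Agent.Helper11.Pq.Taylor

/-! Numerical values of the integrals. -/

namespace Pool.Agent.Helper11.Pq

theorem pwb {b : ℝ} (h1 : 1.570796 ≤ b) (h2 : b ≤ 1.5707965) (k : ℕ) (L U : ℝ)
    (hL : L ≤ 1.570796 ^ k) (hU : 1.5707965 ^ k ≤ U) : L ≤ b ^ k ∧ b ^ k ≤ U :=
  ⟨hL.trans (pow_le_pow_left₀ (by norm_num) h1 k),
    (pow_le_pow_left₀ (by linarith) h2 k).trans hU⟩

noncomputable def L0 : List ℝ :=
  [1/12, -(11/180), 53/3360, -(8983/3628800), 4183/14515200, -(2377/87091200), 322043/146313216000, -(43781/292626432000), 1/148635648, -(1/5780275200), 1/416179814400]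

noncomputable def LK : List ℝ :=
  [1, -1, 5/12, -(5/48), 7/384, -(5/2304), 1/9216]

noncomputable def LS : List ℝ :=
  [1, -(2/3), 1/20, 53/2520, -(143/24192), 253/302400, -(313/4838400), 1/460800]

noncomputable def LC4 : List ℝ :=
  [1, -(1/2), 1/24]

noncomputable def L1 : List ℝ :=
  [1]

noncomputable def LC : List ℝ :=
  [1/2, -(1/24), 1/720, -(1/40320)]

noncomputable def LKK : List ℝ :=
  [1, -1, 11687/30000, -(7061/90000), 1099/144000, 923/3600000, -(42367/172800000), 1939/34560000, -(9527/1382400000), 271/691200000, -(271/27648000000)]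

noncomputable def LD : List ℝ :=
  [1, -(2/3), 5687/30000, -(833/30000), 4487/3600000, 571/900000, -(3287/19200000), 1897/115200000, -(271/460800000)]

theorem vI0 {b : ℝ} (h1 : 1.570796 ≤ b) (h2 : b ≤ 1.5707965) :
    ia 2 L0 b ≤ 0.0310665 := by
  have q3 := pwb h1 h2 3 3.875782166035 3.875785867138 (by norm_num) (by norm_num)
  have q5 := pwb h1 h2 5 9.563105201796 9.563120421964 (by norm_num) (by norm_num)
  have q7 := pwb h1 h2 7 23.59600647890 23.59605905487 (by norm_num) (by norm_num)
  have q9 := pwb h1 h2 9 58.22078812310 58.22095491363 (by norm_num) (by norm_num)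
  have q11 := pwb h1 h2 11 143.6539769009 143.6544798932 (by norm_num) (by norm_num)
  have q13 := pwb h1 h2 13 354.4518331805 354.4532999155 (by norm_num) (by norm_num)
  have q15 := pwb h1 h2 15 874.5744792830 874.5786550789 (by norm_num) (by norm_num)
  have q17 := pwb h1 h2 17 2157.925134565 2157.936811710 (by norm_num) (by norm_num)
  have q19 := pwb h1 h2 19 5324.464635885 5324.496837750 (by norm_num) (by norm_num)
  have q21 := pwb h1 h2 21 13137.58443454 13137.67225314 (by norm_num) (by norm_num)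
  have q23 := pwb h1 h2 23 32415.67680094 32415.91412113 (by norm_num) (by norm_num)
  simp only [L0, ia]
  norm_num
  linarith [q3.1, q3.2, q5.1, q5.2, q7.1, q7.2, q9.1, q9.2, q11.1, q11.2, q13.1, q13.2, q15.1, q15.2, q17.1, q17.2, q19.1, q19.2, q21.1, q21.2, q23.1, q23.2]

theorem vI2 {b : ℝ} (h1 : 1.570796 ≤ b) (h2 : b ≤ 1.5707965) :
    0.029607 ≤ ia 4 L0 b := by
  have q5 := pwb h1 h2 5 9.563105201796 9.563120421964 (by norm_num) (by norm_num)
  have q7 := pwb h1 h2 7 23.59600647890 23.59605905487 (by norm_num) (by norm_num)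
  have q9 := pwb h1 h2 9 58.22078812310 58.22095491363 (by norm_num) (by norm_num)
  have q11 := pwb h1 h2 11 143.6539769009 143.6544798932 (by norm_num) (by norm_num)
  have q13 := pwb h1 h2 13 354.4518331805 354.4532999155 (by norm_num) (by norm_num)
  have q15 := pwb h1 h2 15 874.5744792830 874.5786550789 (by norm_num) (by norm_num)
  have q17 := pwb h1 h2 17 2157.925134565 2157.936811710 (by norm_num) (by norm_num)
  have q19 := pwb h1 h2 19 5324.464635885 5324.496837750 (by norm_num) (by norm_num)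
  have q21 := pwb h1 h2 21 13137.58443454 13137.67225314 (by norm_num) (by norm_num)
  have q23 := pwb h1 h2 23 32415.67680094 32415.91412113 (by norm_num) (by norm_num)
  have q25 := pwb h1 h2 25 79982.44332496 79983.07980759 (by norm_num) (by norm_num)
  simp only [L0, ia]
  norm_num
  linarith [q5.1, q5.2, q7.1, q7.2, q9.1, q9.2, q11.1, q11.2, q13.1, q13.2, q15.1, q15.2, q17.1, q17.2, q19.1, q19.2, q21.1, q21.2, q23.1, q23.2, q25.1, q25.2]

theorem vI4 {b : ℝ} (h1 : 1.570796 ≤ b) (h2 : b ≤ 1.5707965) :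
    ia 6 L0 b ≤ 0.037953 := by
  have q7 := pwb h1 h2 7 23.59600647890 23.59605905487 (by norm_num) (by norm_num)
  have q9 := pwb h1 h2 9 58.22078812310 58.22095491363 (by norm_num) (by norm_num)
  have q11 := pwb h1 h2 11 143.6539769009 143.6544798932 (by norm_num) (by norm_num)
  have q13 := pwb h1 h2 13 354.4518331805 354.4532999155 (by norm_num) (by norm_num)
  have q15 := pwb h1 h2 15 874.5744792830 874.5786550789 (by norm_num) (by norm_num)
  have q17 := pwb h1 h2 17 2157.925134565 2157.936811710 (by norm_num) (by norm_num)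
  have q19 := pwb h1 h2 19 5324.464635885 5324.496837750 (by norm_num) (by norm_num)
  have q21 := pwb h1 h2 21 13137.58443454 13137.67225314 (by norm_num) (by norm_num)
  have q23 := pwb h1 h2 23 32415.67680094 32415.91412113 (by norm_num) (by norm_num)
  have q25 := pwb h1 h2 25 79982.44332496 79983.07980759 (by norm_num) (by norm_num)
  have q27 := pwb h1 h2 27 197348.6865479 197350.3826424 (by norm_num) (by norm_num)
  simp only [L0, ia]
  norm_num
  linarith [q7.1, q7.2, q9.1, q9.2, q11.1, q11.2, q13.1, q13.2, q15.1, q15.2, q17.1, q17.2, q19.1, q19.2, q21.1, q21.2, q23.1, q23.2, q25.1, q25.2, q27.1, q27.2]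

theorem vK {b : ℝ} (h1 : 1.570796 ≤ b) (h2 : b ≤ 1.5707965) :
    ia 2 LK b ≤ 0.295205 := by
  have q3 := pwb h1 h2 3 3.875782166035 3.875785867138 (by norm_num) (by norm_num)
  have q5 := pwb h1 h2 5 9.563105201796 9.563120421964 (by norm_num) (by norm_num)
  have q7 := pwb h1 h2 7 23.59600647890 23.59605905487 (by norm_num) (by norm_num)
  have q9 := pwb h1 h2 9 58.22078812310 58.22095491363 (by norm_num) (by norm_num)
  have q11 := pwb h1 h2 11 143.6539769009 143.6544798932 (by norm_num) (by norm_num)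
  have q13 := pwb h1 h2 13 354.4518331805 354.4532999155 (by norm_num) (by norm_num)
  have q15 := pwb h1 h2 15 874.5744792830 874.5786550789 (by norm_num) (by norm_num)
  simp only [LK, ia]
  norm_num
  linarith [q3.1, q3.2, q5.1, q5.2, q7.1, q7.2, q9.1, q9.2, q11.1, q11.2, q13.1, q13.2, q15.1, q15.2]

theorem va1 {b : ℝ} (h1 : 1.570796 ≤ b) (h2 : b ≤ 1.5707965) :
    ia 2 LS b ≤ 0.26358 := by
  have q3 := pwb h1 h2 3 3.875782166035 3.875785867138 (by norm_num) (by norm_num)
  have q5 := pwb h1 h2 5 9.563105201796 9.563120421964 (by norm_num) (by norm_num)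
  have q7 := pwb h1 h2 7 23.59600647890 23.59605905487 (by norm_num) (by norm_num)
  have q9 := pwb h1 h2 9 58.22078812310 58.22095491363 (by norm_num) (by norm_num)
  have q11 := pwb h1 h2 11 143.6539769009 143.6544798932 (by norm_num) (by norm_num)
  have q13 := pwb h1 h2 13 354.4518331805 354.4532999155 (by norm_num) (by norm_num)
  have q15 := pwb h1 h2 15 874.5744792830 874.5786550789 (by norm_num) (by norm_num)
  have q17 := pwb h1 h2 17 2157.925134565 2157.936811710 (by norm_num) (by norm_num)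
  simp only [LS, ia]
  norm_num
  linarith [q3.1, q3.2, q5.1, q5.2, q7.1, q7.2, q9.1, q9.2, q11.1, q11.2, q13.1, q13.2, q15.1, q15.2, q17.1, q17.2]

theorem va2 {b : ℝ} (h1 : 1.570796 ≤ b) (h2 : b ≤ 1.5707965) :
    ia 3 LS b ≤ 0.19393 := by
  have q4 := pwb h1 h2 4 6.088063123280 6.088070874849 (by norm_num) (by norm_num)
  have q6 := pwb h1 h2 6 15.02168739856 15.02171608790 (by norm_num) (by norm_num)
  have q8 := pwb h1 h2 8 37.06451259304 37.06460697718 (by norm_num) (by norm_num)
  have q10 := pwb h1 h2 10 91.45298110061 91.45327220498 (by norm_num) (by norm_num)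
  have q12 := pwb h1 h2 12 225.6510923000 225.6519542255 (by norm_num) (by norm_num)
  have q14 := pwb h1 h2 14 556.7715217527 556.7740029207 (by norm_num) (by norm_num)
  have q16 := pwb h1 h2 16 1373.778093759 1373.785090373 (by norm_num) (by norm_num)
  have q18 := pwb h1 h2 18 3389.660169675 3389.679591055 (by norm_num) (by norm_num)
  simp only [LS, ia]
  norm_num
  linarith [q4.1, q4.2, q6.1, q6.2, q8.1, q8.2, q10.1, q10.2, q12.1, q12.2, q14.1, q14.2, q16.1, q16.2, q18.1, q18.2]

theorem vb12 {b : ℝ} (h1 : 1.570796 ≤ b) (h2 : b ≤ 1.5707965) :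
    ia 12 LC4 b ≤ 3.4023 := by
  have q13 := pwb h1 h2 13 354.4518331805 354.4532999155 (by norm_num) (by norm_num)
  have q15 := pwb h1 h2 15 874.5744792830 874.5786550789 (by norm_num) (by norm_num)
  have q17 := pwb h1 h2 17 2157.925134565 2157.936811710 (by norm_num) (by norm_num)
  simp only [LC4, ia]
  norm_num
  linarith [q13.1, q13.2, q15.1, q15.2, q17.1, q17.2]

theorem vp11 {b : ℝ} (h1 : 1.570796 ≤ b) (h2 : b ≤ 1.5707965) :
    ia 11 L1 b ≤ 18.8044 := by
  have q12 := pwb h1 h2 12 225.6510923000 225.6519542255 (by norm_num) (by norm_num)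
  simp only [L1, ia]
  norm_num
  linarith [q12.1, q12.2]

theorem vp12 {b : ℝ} (h1 : 1.570796 ≤ b) (h2 : b ≤ 1.5707965) :
    ia 12 L1 b ≤ 27.266 := by
  have q13 := pwb h1 h2 13 354.4518331805 354.4532999155 (by norm_num) (by norm_num)
  simp only [L1, ia]
  norm_num
  linarith [q13.1, q13.2]

theorem vp5 {b : ℝ} (h1 : 1.570796 ≤ b) (h2 : b ≤ 1.5707965) :
    ia 5 L1 b ≤ 2.50363 := by
  have q6 := pwb h1 h2 6 15.02168739856 15.02171608790 (by norm_num) (by norm_num)
  simp only [L1, ia]
  norm_num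
  linarith [q6.1, q6.2]

theorem vp6 {b : ℝ} (h1 : 1.570796 ≤ b) (h2 : b ≤ 1.5707965) :
    ia 6 L1 b ≤ 3.3709 := by
  have q7 := pwb h1 h2 7 23.59600647890 23.59605905487 (by norm_num) (by norm_num)
  simp only [L1, ia]
  norm_num
  linarith [q7.1, q7.2]

theorem vLC {b : ℝ} (h1 : 1.570796 ≤ b) (h2 : b ≤ 1.5707965) :
    0.73414 ≤ ia 0 LC b := by
  have q1 := pwb h1 h2 1 1.570796000000 1.570796500001 (by norm_num) (by norm_num)
  have q3 := pwb h1 h2 3 3.875782166035 3.875785867138 (by norm_num) (by norm_num)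
  have q5 := pwb h1 h2 5 9.563105201796 9.563120421964 (by norm_num) (by norm_num)
  have q7 := pwb h1 h2 7 23.59600647890 23.59605905487 (by norm_num) (by norm_num)
  simp only [LC, ia]
  norm_num
  linarith [q1.1, q1.2, q3.1, q3.2, q5.1, q5.2, q7.1, q7.2]

theorem vk0 {b : ℝ} (h1 : 1.570796 ≤ b) (h2 : b ≤ 1.5707965) :
    0.282734 ≤ ia 2 LKK b := by
  have q3 := pwb h1 h2 3 3.875782166035 3.875785867138 (by norm_num) (by norm_num)
  have q5 := pwb h1 h2 5 9.563105201796 9.563120421964 (by norm_num) (by norm_num)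
  have q7 := pwb h1 h2 7 23.59600647890 23.59605905487 (by norm_num) (by norm_num)
  have q9 := pwb h1 h2 9 58.22078812310 58.22095491363 (by norm_num) (by norm_num)
  have q11 := pwb h1 h2 11 143.6539769009 143.6544798932 (by norm_num) (by norm_num)
  have q13 := pwb h1 h2 13 354.4518331805 354.4532999155 (by norm_num) (by norm_num)
  have q15 := pwb h1 h2 15 874.5744792830 874.5786550789 (by norm_num) (by norm_num)
  have q17 := pwb h1 h2 17 2157.925134565 2157.936811710 (by norm_num) (by norm_num)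
  have q19 := pwb h1 h2 19 5324.464635885 5324.496837750 (by norm_num) (by norm_num)
  have q21 := pwb h1 h2 21 13137.58443454 13137.67225314 (by norm_num) (by norm_num)
  have q23 := pwb h1 h2 23 32415.67680094 32415.91412113 (by norm_num) (by norm_num)
  simp only [LKK, ia]
  norm_num
  linarith [q3.1, q3.2, q5.1, q5.2, q7.1, q7.2, q9.1, q9.2, q11.1, q11.2, q13.1, q13.2, q15.1, q15.2, q17.1, q17.2, q19.1, q19.2, q21.1, q21.2, q23.1, q23.2]

theorem vk1 {b : ℝ} (h1 : 1.570796 ≤ b) (h2 : b ≤ 1.5707965) :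
    ia 4 LKK b ≤ 0.241134 := by
  have q5 := pwb h1 h2 5 9.563105201796 9.563120421964 (by norm_num) (by norm_num)
  have q7 := pwb h1 h2 7 23.59600647890 23.59605905487 (by norm_num) (by norm_num)
  have q9 := pwb h1 h2 9 58.22078812310 58.22095491363 (by norm_num) (by norm_num)
  have q11 := pwb h1 h2 11 143.6539769009 143.6544798932 (by norm_num) (by norm_num)
  have q13 := pwb h1 h2 13 354.4518331805 354.4532999155 (by norm_num) (by norm_num)
  have q15 := pwb h1 h2 15 874.5744792830 874.5786550789 (by norm_num) (by norm_num)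
  have q17 := pwb h1 h2 17 2157.925134565 2157.936811710 (by norm_num) (by norm_num)
  have q19 := pwb h1 h2 19 5324.464635885 5324.496837750 (by norm_num) (by norm_num)
  have q21 := pwb h1 h2 21 13137.58443454 13137.67225314 (by norm_num) (by norm_num)
  have q23 := pwb h1 h2 23 32415.67680094 32415.91412113 (by norm_num) (by norm_num)
  have q25 := pwb h1 h2 25 79982.44332496 79983.07980759 (by norm_num) (by norm_num)
  simp only [LKK, ia]
  norm_num
  linarith [q5.1, q5.2, q7.1, q7.2, q9.1, q9.2, q11.1, q11.2, q13.1, q13.2, q15.1, q15.2, q17.1, q17.2, q19.1, q19.2, q21.1, q21.2, q23.1, q23.2, q25.1, q25.2]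

theorem vk2 {b : ℝ} (h1 : 1.570796 ≤ b) (h2 : b ≤ 1.5707965) :
    0.285635 ≤ ia 6 LKK b := by
  have q7 := pwb h1 h2 7 23.59600647890 23.59605905487 (by norm_num) (by norm_num)
  have q9 := pwb h1 h2 9 58.22078812310 58.22095491363 (by norm_num) (by norm_num)
  have q11 := pwb h1 h2 11 143.6539769009 143.6544798932 (by norm_num) (by norm_num)
  have q13 := pwb h1 h2 13 354.4518331805 354.4532999155 (by norm_num) (by norm_num)
  have q15 := pwb h1 h2 15 874.5744792830 874.5786550789 (by norm_num) (by norm_num)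
  have q17 := pwb h1 h2 17 2157.925134565 2157.936811710 (by norm_num) (by norm_num)
  have q19 := pwb h1 h2 19 5324.464635885 5324.496837750 (by norm_num) (by norm_num)
  have q21 := pwb h1 h2 21 13137.58443454 13137.67225314 (by norm_num) (by norm_num)
  have q23 := pwb h1 h2 23 32415.67680094 32415.91412113 (by norm_num) (by norm_num)
  have q25 := pwb h1 h2 25 79982.44332496 79983.07980759 (by norm_num) (by norm_num)
  have q27 := pwb h1 h2 27 197348.6865479 197350.3826424 (by norm_num) (by norm_num)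
  simp only [LKK, ia]
  norm_num
  linarith [q7.1, q7.2, q9.1, q9.2, q11.1, q11.2, q13.1, q13.2, q15.1, q15.2, q17.1, q17.2, q19.1, q19.2, q21.1, q21.2, q23.1, q23.2, q25.1, q25.2, q27.1, q27.2]

theorem vk3 {b : ℝ} (h1 : 1.570796 ≤ b) (h2 : b ≤ 1.5707965) :
    ia 8 LKK b ≤ 0.40396 := by
  have q9 := pwb h1 h2 9 58.22078812310 58.22095491363 (by norm_num) (by norm_num)
  have q11 := pwb h1 h2 11 143.6539769009 143.6544798932 (by norm_num) (by norm_num)
  have q13 := pwb h1 h2 13 354.4518331805 354.4532999155 (by norm_num) (by norm_num)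
  have q15 := pwb h1 h2 15 874.5744792830 874.5786550789 (by norm_num) (by norm_num)
  have q17 := pwb h1 h2 17 2157.925134565 2157.936811710 (by norm_num) (by norm_num)
  have q19 := pwb h1 h2 19 5324.464635885 5324.496837750 (by norm_num) (by norm_num)
  have q21 := pwb h1 h2 21 13137.58443454 13137.67225314 (by norm_num) (by norm_num)
  have q23 := pwb h1 h2 23 32415.67680094 32415.91412113 (by norm_num) (by norm_num)
  have q25 := pwb h1 h2 25 79982.44332496 79983.07980759 (by norm_num) (by norm_num)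
  have q27 := pwb h1 h2 27 197348.6865479 197350.3826424 (by norm_num) (by norm_num)
  have q29 := pwb h1 h2 29 486938.1637165 486942.6586573 (by norm_num) (by norm_num)
  simp only [LKK, ia]
  norm_num
  linarith [q9.1, q9.2, q11.1, q11.2, q13.1, q13.2, q15.1, q15.2, q17.1, q17.2, q19.1, q19.2, q21.1, q21.2, q23.1, q23.2, q25.1, q25.2, q27.1, q27.2, q29.1, q29.2]

theorem vd6 {b : ℝ} (h1 : 1.570796 ≤ b) (h2 : b ≤ 1.5707965) :
    ia 6 LD b ≤ 0.891493 := by
  have q7 := pwb h1 h2 7 23.59600647890 23.59605905487 (by norm_num) (by norm_num)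
  have q9 := pwb h1 h2 9 58.22078812310 58.22095491363 (by norm_num) (by norm_num)
  have q11 := pwb h1 h2 11 143.6539769009 143.6544798932 (by norm_num) (by norm_num)
  have q13 := pwb h1 h2 13 354.4518331805 354.4532999155 (by norm_num) (by norm_num)
  have q15 := pwb h1 h2 15 874.5744792830 874.5786550789 (by norm_num) (by norm_num)
  have q17 := pwb h1 h2 17 2157.925134565 2157.936811710 (by norm_num) (by norm_num)
  have q19 := pwb h1 h2 19 5324.464635885 5324.496837750 (by norm_num) (by norm_num)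
  have q21 := pwb h1 h2 21 13137.58443454 13137.67225314 (by norm_num) (by norm_num)
  have q23 := pwb h1 h2 23 32415.67680094 32415.91412113 (by norm_num) (by norm_num)
  simp only [LD, ia]
  norm_num
  linarith [q7.1, q7.2, q9.1, q9.2, q11.1, q11.2, q13.1, q13.2, q15.1, q15.2, q17.1, q17.2, q19.1, q19.2, q21.1, q21.2, q23.1, q23.2]

theorem vd7 {b : ℝ} (h1 : 1.570796 ≤ b) (h2 : b ≤ 1.5707965) :
    ia 7 LD b ≤ 1.16573 := by
  have q8 := pwb h1 h2 8 37.06451259304 37.06460697718 (by norm_num) (by norm_num)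
  have q10 := pwb h1 h2 10 91.45298110061 91.45327220498 (by norm_num) (by norm_num)
  have q12 := pwb h1 h2 12 225.6510923000 225.6519542255 (by norm_num) (by norm_num)
  have q14 := pwb h1 h2 14 556.7715217527 556.7740029207 (by norm_num) (by norm_num)
  have q16 := pwb h1 h2 16 1373.778093759 1373.785090373 (by norm_num) (by norm_num)
  have q18 := pwb h1 h2 18 3389.660169675 3389.679591055 (by norm_num) (by norm_num)
  have q20 := pwb h1 h2 20 8363.647752190 8363.700996998 (by norm_num) (by norm_num)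
  have q22 := pwb h1 h2 22 20636.46507945 20636.60959337 (by norm_num) (by norm_num)
  have q24 := pwb h1 h2 24 50918.41545621 50918.80444577 (by norm_num) (by norm_num)
  simp only [LD, ia]
  norm_num
  linarith [q8.1, q8.2, q10.1, q10.2, q12.1, q12.2, q14.1, q14.2, q16.1, q16.2, q18.1, q18.2, q20.1, q20.2, q22.1, q22.2, q24.1, q24.2]

end Pool.Agent.Helper11.Pq
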